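import Mathlib

/-!
# A ballot count

The number of `ω : ι → Fin K` with `#{i | ω i < t} ≤ t` for all `t` is at least
`(K + 1 - M) (K + 1) ^ (M - 1)`, `M = #ι` (in fact equality holds).
-/

set_option autoImplicit false

namespace Pool.Agent.H81.RE

open Finset

variable {ι : Type} [Fintype ι] [DecidableEq ι]

/-- the start `a` is good for the points `σ i`, `i ∈ S` -/
def Good {k : ℕ} (σ : ι → ZMod (k + 1)) (S : Finset ι) (a : ZMod (k + 1)) : Prop :=
  ∀ t : ℕ, 1 ≤ t → (S.filter fun i => (σ i - a).val < t).card < t

omit [Fintype ι] in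
theorem good_of_insert {k : ℕ} {σ : ι → ZMod (k + 1)} {S : Finset ι} {j : ι}
    {a a' : ZMod (k + 1)} (ha : Good σ S a) (ha' : Good σ S a')
    (hlt : (σ j - a').val < (σ j - a).val) : Good σ (insert j S) a := by
  intro t ht
  by_contra hcon
  push Not at hcon
  have h1 := ha t ht
  rw [filter_insert] at hcon
  by_cases h2 : (σ j - a).val < t
  · rw [if_pos h2] at hcon
    have h3 := card_insert_le j (S.filter fun i => (σ i - a).val < t)
    -- the distance between the starts
    obtain ⟨b, hb⟩ : ∃ b, b = a' - a := ⟨_, rfl⟩
    have hbval : b.val = (σ j - a).val - (σ j - a').val := by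
      have e : b = (σ j - a) - (σ j - a') := by rw [hb]; ring
      rw [e, ZMod.val_sub hlt.le]
    have hb1 : 1 ≤ b.val := by omega
    have hbt : b.val < t := by omega
    have h4 := ha b.val hb1
    have h5 := ha' (t - b.val) (by omega)
    have h6 : (S.filter fun i => (σ i - a).val < t) ⊆
        (S.filter fun i => (σ i - a).val < b.val) ∪
          (S.filter fun i => (σ i - a').val < t - b.val) := by
      intro i hi
      rw [mem_filter] at hi
      rw [mem_union, mem_filter, mem_filter]
      rcases Nat.lt_or_ge (σ i - a).val b.val with h7 | h7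
      · exact Or.inl ⟨hi.1, h7⟩
      · right
        refine ⟨hi.1, ?_⟩
        have e : σ i - a' = (σ i - a) - b := by rw [hb]; ring
        rw [e, ZMod.val_sub h7]
        omega
    have h7 := (card_le_card h6).trans (card_union_le _ _)
    omega
  · rw [if_neg h2] at hcon
    omega

omit [Fintype ι] in
theorem card_good {k : ℕ} (σ : ι → ZMod (k + 1)) (S : Finset ι) [DecidablePred (Good σ S)] :
    k + 1 - S.card ≤ ((univ : Finset (ZMod (k + 1))).filter (Good σ S)).card := by
  classical
  have key : ∀ S : Finset ι, k + 1 ≤
      ((univ : Finset (ZMod (k + 1))).filter (Good σ S)).card + S.card := by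
    intro S
    induction S using Finset.induction_on with
    | empty =>
      have h1 : (univ : Finset (ZMod (k + 1))).filter (Good σ ∅) = univ := by
        rw [filter_eq_self]
        intro a _ t ht
        simp only [filter_empty, card_empty]
        omega
      rw [h1, card_univ, ZMod.card]
      simp
    | insert j S hj ih =>
      rw [card_insert_of_notMem hj]
      have h1 : ((univ : Finset (ZMod (k + 1))).filter (Good σ S)).card ≤
          ((univ : Finset (ZMod (k + 1))).filter (Good σ (insert j S))).card + 1 := by
        obtain ⟨X, hX⟩ : ∃ X, X = ((univ : Finset (ZMod (k + 1))).filter (Good σ S)) \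
          ((univ : Finset (ZMod (k + 1))).filter (Good σ (insert j S))) := ⟨_, rfl⟩
        have h2 : X.card ≤ 1 := by
          rw [card_le_one]
          intro a ha a' ha'
          rw [hX, mem_sdiff, mem_filter, mem_filter] at ha ha'
          by_contra hne
          rcases lt_trichotomy (σ j - a).val (σ j - a').val with h | h | h
          · exact ha'.2 ⟨mem_univ _, good_of_insert ha'.1.2 ha.1.2 h⟩
          · have := ZMod.val_injective _ h
            exact hne (sub_right_injective this)
          · exact ha.2 ⟨mem_univ _, good_of_insert ha.1.2 ha'.1.2 h⟩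
        have h3 := le_card_sdiff ((univ : Finset (ZMod (k + 1))).filter (Good σ (insert j S)))
          ((univ : Finset (ZMod (k + 1))).filter (Good σ S))
        rw [← hX] at h3
        omega
      omega
  have h1 := key S
  have h2 : ((univ : Finset (ZMod (k + 1))).filter (Good σ S)).card =
      (@Finset.filter _ (Good σ S) (fun a => Classical.propDecidable _) univ).card := by
    congr
  omega

open Classical in
/-- **The ballot count.** -/
theorem ballot (K : ℕ) :
    (K + 1 - Fintype.card ι) * (K + 1) ^ Fintype.card ι ≤ (K + 1) *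
      ((univ : Finset (ι → Fin K)).filter fun ω : ι → Fin K =>
        ∀ t : ℕ, ((univ : Finset ι).filter fun i => (ω i : ℕ) < t).card ≤ t).card := by
  classical
  -- strictly good functions into `ZMod (K + 1)`
  obtain ⟨G, hG⟩ : ∃ G : Finset (ι → ZMod (K + 1)), G = univ.filter fun σ => Good σ univ 0 :=
    ⟨_, rfl⟩
  have h1 : (K + 1 - Fintype.card ι) * (K + 1) ^ Fintype.card ι ≤ (K + 1) * G.card := by
    have h2 : ∀ σ : ι → ZMod (K + 1), K + 1 - Fintype.card ι ≤
        ∑ a : ZMod (K + 1), if Good σ univ a then 1 else 0 := by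
      intro σ
      rw [sum_boole, Nat.cast_id]
      exact card_good σ univ
    have h3 : ∀ a : ZMod (K + 1), ∑ σ : ι → ZMod (K + 1), (if Good σ univ a then 1 else 0) =
        G.card := by
      intro a
      rw [hG, card_filter]
      refine Fintype.sum_equiv (Equiv.subRight (fun _ => a)) _ _ fun σ => ?_
      have e : Good σ univ a ↔ Good ((Equiv.subRight (fun _ => a)) σ) univ 0 := by
        unfold Good
        simp
      simp only [e]
    calc (K + 1 - Fintype.card ι) * (K + 1) ^ Fintype.card ι
        = ∑ σ : ι → ZMod (K + 1), (K + 1 - Fintype.card ι) := by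
          rw [sum_const, card_univ, smul_eq_mul, Fintype.card_fun, ZMod.card, mul_comm]
      _ ≤ ∑ σ : ι → ZMod (K + 1), ∑ a : ZMod (K + 1), (if Good σ univ a then 1 else 0) :=
          sum_le_sum fun σ _ => h2 σ
      _ = ∑ a : ZMod (K + 1), G.card := by
          rw [sum_comm]
          exact sum_congr rfl fun a _ => h3 a
      _ = (K + 1) * G.card := by
          rw [sum_const, card_univ, ZMod.card, smul_eq_mul]
  refine h1.trans (Nat.mul_le_mul_left _ ?_)
  have hpos : ∀ σ ∈ G, ∀ i, 1 ≤ (σ i).val := by
    intro σ hσ i
    rw [hG, mem_filter] at hσ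
    have h2 := hσ.2 1 le_rfl
    by_contra h3
    have h4 : i ∈ (univ : Finset ι).filter fun i => (σ i - 0).val < 1 := by
      rw [mem_filter, sub_zero]
      exact ⟨mem_univ _, by omega⟩
    have := card_pos.mpr ⟨i, h4⟩
    omega
  refine card_le_card_of_surjOn
    (fun (ω : ι → Fin K) (i : ι) => (((ω i : ℕ) + 1 : ℕ) : ZMod (K + 1))) ?_
  intro σ hσ
  have hσ' : σ ∈ G := hσ
  refine ⟨fun i => ⟨(σ i).val - 1, ?_⟩, ?_, ?_⟩
  · have h2 := ZMod.val_lt (σ i)
    have h3 := hpos σ hσ' i
    omega
  · rw [mem_coe, mem_filter]
    refine ⟨mem_univ _, fun t => ?_⟩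
    have h2 := hσ'
    rw [hG, mem_filter] at h2
    have h3 := h2.2 (t + 1) (by omega)
    have h4 : (univ.filter fun i : ι => (σ i).val - 1 < t) =
        univ.filter fun i : ι => (σ i - 0).val < t + 1 := by
      refine filter_congr fun i _ => ?_
      have h5 := hpos σ hσ' i
      rw [sub_zero]
      omega
    simp only
    rw [h4]
    omega
  · ext i
    simp only
    have h3 := hpos σ hσ' i
    rw [Nat.sub_add_cancel h3, ZMod.natCast_zmod_val]

end Pool.Agent.H81.RE
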