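import Pool.Agent.H81.RE.Proc

/-!
# Closing up: the constant `84 / 25`
-/

set_option autoImplicit false

namespace Pool.Agent.H81.RE

open Finset Pool.Agent.H81.RD

variable {V : Type}

theorem exp_bound : (16 / 3 : ℝ) < Real.exp (1.6744) := by
  have h1 : Real.exp 1.6744 = Real.exp 1 * Real.exp 0.6744 := by
    rw [← Real.exp_add]
    norm_num
  have h2 := Real.exp_one_gt_d9
  have h3 := Real.sum_le_exp_of_nonneg (by norm_num : (0 : ℝ) ≤ 0.6744) 7
  have h4 : (1.9627 : ℝ) ≤ ∑ i ∈ range 7, (0.6744 : ℝ) ^ i / (i.factorial : ℝ) := by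
    simp only [sum_range_succ, sum_range_zero, Nat.factorial]
    norm_num
  rw [h1]
  have h5 : (1.9627 : ℝ) ≤ Real.exp 0.6744 := h4.trans h3
  nlinarith

/-- the numerical inequality -/
theorem numeric {k : ℕ} (hk : 200 ≤ k) :
    2 * (((16 * k : ℕ) : ℝ) ^ (5 * k) * (((16 * k : ℕ) : ℝ) - 84 / 25) ^ (5 * k)) *
        ((16 * k + 1 : ℕ) : ℝ) <
      ((6 * k + 1 : ℕ) : ℝ) * ((16 * k + 1 : ℕ) : ℝ) ^ (10 * k) := by
  obtain ⟨q, hq⟩ : ∃ q : ℝ, q = ((16 * k + 1 : ℕ) : ℝ) := ⟨_, rfl⟩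
  have hkr : (200 : ℝ) ≤ k := by exact_mod_cast hk
  have hqk : q = 16 * k + 1 := by rw [hq]; push_cast; ring
  have hq0 : 0 < q := by rw [hqk]; linarith
  have e1 : ((16 * k : ℕ) : ℝ) = q - 1 := by rw [hqk]; push_cast; ring
  rw [← hq, e1]
  -- the product of the two bases
  have h1 : (q - 1) * (q - 1 - 84 / 25) ≤ q ^ 2 * Real.exp (-(134 / 25) / q) := by
    have h2 : 1 - 1 / q ≤ Real.exp (-1 / q) := by
      have := Real.add_one_le_exp (-1 / q)
      have e : -1 / q + 1 = 1 - 1 / q := by ring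
      linarith
    have h3 : 1 - (109 / 25) / q ≤ Real.exp (-(109 / 25) / q) := by
      have := Real.add_one_le_exp (-(109 / 25) / q)
      have e : -(109 / 25) / q + 1 = 1 - (109 / 25) / q := by ring
      linarith
    have h4 : 0 ≤ 1 - (109 / 25) / q := by
      rw [sub_nonneg, div_le_one hq0, hqk]
      linarith
    have h5 : 0 ≤ 1 - 1 / q := by
      rw [sub_nonneg, div_le_one hq0, hqk]
      linarith
    have h6 : (1 - 1 / q) * (1 - (109 / 25) / q) ≤
        Real.exp (-1 / q) * Real.exp (-(109 / 25) / q) :=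
      mul_le_mul h2 h3 h4 (Real.exp_pos _).le
    rw [← Real.exp_add] at h6
    have e : -1 / q + -(109 / 25) / q = -(134 / 25) / q := by ring
    rw [e] at h6
    have e2 : (q - 1) * (q - 1 - 84 / 25) = q ^ 2 * ((1 - 1 / q) * (1 - (109 / 25) / q)) := by
      field_simp
      ring
    rw [e2]
    exact mul_le_mul_of_nonneg_left h6 (by positivity)
  have h0 : 0 ≤ (q - 1) * (q - 1 - 84 / 25) :=
    mul_nonneg (by rw [hqk]; linarith) (by rw [hqk]; linarith)
  have h2 : (q - 1) ^ (5 * k) * (q - 1 - 84 / 25) ^ (5 * k) ≤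
      q ^ (10 * k) * Real.exp (-((134 / 25) * (5 * k) / q)) := by
    rw [← mul_pow]
    refine (pow_le_pow_left₀ h0 h1 _).trans (le_of_eq ?_)
    have e3 : 2 * (5 * k) = 10 * k := by ring
    have e4 : (((5 * k : ℕ)) : ℝ) * (-(134 / 25) / q) = -((134 / 25) * (5 * k) / q) := by
      push_cast
      ring
    rw [mul_pow, ← pow_mul, ← Real.exp_nat_mul, e3, e4]
  have h3 : Real.exp (-((134 / 25) * (5 * k) / q)) < 3 / 16 := by
    have h4 : (1.6744 : ℝ) ≤ (134 / 25) * (5 * k) / q := by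
      rw [le_div_iff₀ hq0, hqk]
      linarith
    have h5 : Real.exp (-((134 / 25) * (5 * k) / q)) ≤ Real.exp (-1.6744) :=
      Real.exp_le_exp.mpr (by linarith)
    have h6 : Real.exp (-1.6744) < 3 / 16 := by
      rw [Real.exp_neg, inv_lt_comm₀ (Real.exp_pos _) (by norm_num)]
      have := exp_bound
      norm_num at this ⊢
      linarith
    linarith
  have h4 : 0 < q ^ (10 * k) := by positivity
  calc 2 * ((q - 1) ^ (5 * k) * (q - 1 - 84 / 25) ^ (5 * k)) * q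
      ≤ 2 * (q ^ (10 * k) * Real.exp (-((134 / 25) * (5 * k) / q))) * q := by
        gcongr
    _ < 2 * (q ^ (10 * k) * (3 / 16)) * q := by
        gcongr
    _ ≤ ((6 * k + 1 : ℕ) : ℝ) * q ^ (10 * k) := by
        push_cast
        rw [hqk]
        have h5 : 0 ≤ (16 * (k : ℝ) + 1) ^ (10 * k) := by positivity
        nlinarith

theorem minimal_ind [DecidableEq V] {s : V → V → ℕ} {c : ℝ} (hs0 : ∀ u, s u u = 0)
    {concl : Prop}
    (h : ∀ B : Finset V, 2 ≤ B.card → (∀ u ∈ B, c * ((B.card : ℝ) - 1) ≤ ∑ y ∈ B, (s u y : ℝ)) →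
      (∀ R ⊆ B, R.Nonempty → R ≠ B →
        ∃ u ∈ R, c * ((B \ R).card : ℝ) ≤ ∑ y ∈ B \ R, (s u y : ℝ)) → concl) :
    ∀ (k : ℕ) (B : Finset V), B.card = k → 2 ≤ B.card →
      (∀ u ∈ B, c * ((B.card : ℝ) - 1) ≤ ∑ y ∈ B, (s u y : ℝ)) → concl := by
  intro k
  induction k using Nat.strong_induction_on with
  | _ k ih =>
  intro B hk hB2 hB
  by_cases hmin : ∀ R ⊆ B, 2 ≤ R.card → R ≠ B →
      ∃ u ∈ R, ∑ y ∈ R, (s u y : ℝ) < c * ((R.card : ℝ) - 1)
  · refine h B hB2 hB fun R hRB hRne hne => ?_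
    have hexit : ∃ u ∈ R, ∑ y ∈ R, (s u y : ℝ) ≤ c * ((R.card : ℝ) - 1) := by
      have hR1 : 1 ≤ R.card := card_pos.mpr hRne
      rcases Nat.lt_or_ge R.card 2 with h1 | h1
      · have h2 : R.card = 1 := by omega
        obtain ⟨a, ha⟩ := card_eq_one.mp h2
        refine ⟨a, by rw [ha]; exact mem_singleton_self a, ?_⟩
        rw [ha, sum_singleton, hs0, card_singleton]
        simp
      · obtain ⟨u, hu, h2⟩ := hmin R hRB h1 hne
        exact ⟨u, hu, h2.le⟩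
    obtain ⟨u, huR, hu⟩ := hexit
    refine ⟨u, huR, ?_⟩
    have hcard : ((B \ R).card : ℝ) = ((B.card : ℝ) - 1) - ((R.card : ℝ) - 1) := by
      rw [card_sdiff_of_subset hRB, Nat.cast_sub (card_le_card hRB)]
      ring
    have hsplit : ∑ y ∈ B \ R, (s u y : ℝ) + ∑ y ∈ R, (s u y : ℝ) = ∑ y ∈ B, (s u y : ℝ) :=
      sum_sdiff hRB
    have h1 := hB u (hRB huR)
    rw [hcard, mul_sub]
    linarith
  · push Not at hmin
    obtain ⟨R, hRB, hR2, hne, hR⟩ := hmin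
    have hlt : R.card < k := by
      rw [← hk]
      exact card_lt_card (ssubset_of_subset_of_ne hRB hne)
    exact ih _ hlt R rfl hR2 hR

/-- counting pairs -/
theorem pair_count [DecidableEq V] (B : Finset V) (R R' : V → Finset V)
    (hR : ∀ v ∈ B, R v ⊆ B) (hR' : ∀ v ∈ B, R' v ⊆ B)
    (hno : ∀ v ∈ B, ∀ y ∈ B, v ≠ y → y ∈ R v → v ∉ R' y) :
    (B.card : ℝ) * ((B.card : ℝ) - 1) ≤
      ∑ v ∈ B, (((B \ R v).card : ℝ) + ((B \ R' v).card : ℝ)) := by
  have h1 : ∑ v ∈ B, ∑ y ∈ B, ((if y ∈ R v then (1 : ℝ) else 0) + (if v ∈ R' y then 1 else 0)) ≤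
      ∑ v ∈ B, ∑ y ∈ B, (1 + if y = v then (1 : ℝ) else 0) := by
    refine sum_le_sum fun v hv => sum_le_sum fun y hy => ?_
    by_cases h : y = v
    · rw [if_pos h]
      split_ifs <;> norm_num
    · rw [if_neg h]
      by_cases h2 : y ∈ R v
      · rw [if_pos h2, if_neg (hno v hv y hy (Ne.symm h) h2)]
      · rw [if_neg h2]
        split_ifs <;> norm_num
  have e1 : ∀ (S : V → Finset V), (∀ v ∈ B, S v ⊆ B) → ∀ v ∈ B,
      ∑ y ∈ B, (if y ∈ S v then (1 : ℝ) else 0) = (B.card : ℝ) - ((B \ S v).card : ℝ) := by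
    intro S hS v hv
    rw [sum_boole]
    have h3 : B.filter (fun y => y ∈ S v) = S v := by
      ext y
      rw [mem_filter]
      exact ⟨fun h => h.2, fun h => ⟨hS v hv h, h⟩⟩
    rw [h3, card_sdiff_of_subset (hS v hv), Nat.cast_sub (card_le_card (hS v hv))]
    ring
  have h2 : ∑ v ∈ B, ∑ y ∈ B, ((if y ∈ R v then (1 : ℝ) else 0) + (if v ∈ R' y then 1 else 0)) =
      ∑ v ∈ B, (2 * (B.card : ℝ) - (((B \ R v).card : ℝ) + ((B \ R' v).card : ℝ))) := by
    simp only [sum_add_distrib]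
    rw [sum_comm (f := fun v y => if v ∈ R' y then (1 : ℝ) else 0)]
    rw [sum_congr rfl (e1 R hR), sum_congr rfl (e1 R' hR'), ← sum_add_distrib]
    exact sum_congr rfl fun v _ => by ring
  have h3 : ∑ v ∈ B, ∑ y ∈ B, (1 + if y = v then (1 : ℝ) else 0) =
      ∑ v ∈ B, ((B.card : ℝ) + 1) := by
    refine sum_congr rfl fun v hv => ?_
    rw [sum_add_distrib, sum_const, nsmul_eq_mul, mul_one, sum_ite_eq' B v, if_pos hv]
  rw [h2, h3, sum_sub_distrib] at h1
  simp only [sum_const, nsmul_eq_mul] at h1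
  linarith

/-- **Closed walks exist.** -/
theorem exists_closed [DecidableEq V] {s : V → V → ℕ} (hs0 : ∀ u, s u u = 0) (B : Finset V)
    (hB2 : 2 ≤ B.card)
    (hB : ∀ u ∈ B, (84 / 25 : ℝ) * ((B.card : ℝ) - 1) ≤ ∑ y ∈ B, (s u y : ℝ)) :
    ∃ (v : V) (N : ℕ → ℕ) (L : ℕ), 0 < L ∧ W s v N L v ∧ ∀ T : ℕ, N T ≤ T := by
  refine minimal_ind hs0 ?_ _ B rfl hB2 hB
  clear hB2 hB B
  intro B hB2 hB hexit
  by_contra hcon
  push Not at hcon
  have hBne : B.Nonempty := card_pos.mp (by omega)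
  obtain ⟨b0, hb0⟩ := hBne
  -- the exit vertices
  have hf : ∃ f : Finset V → V, ∀ R : Finset V, R.Nonempty → R ⊆ B →
      f R ∈ R ∧ (84 / 25 : ℝ) * ((B \ R).card : ℝ) ≤ ∑ y ∈ B \ R, (s (f R) y : ℝ) := by
    have h1 : ∀ R : Finset V, ∃ u : V, R.Nonempty → R ⊆ B →
        u ∈ R ∧ (84 / 25 : ℝ) * ((B \ R).card : ℝ) ≤ ∑ y ∈ B \ R, (s u y : ℝ) := by
      intro R
      by_cases h2 : R.Nonempty ∧ R ⊆ B
      · by_cases h3 : R = B
        · obtain ⟨u, hu⟩ := h2.1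
          refine ⟨u, fun _ _ => ⟨hu, ?_⟩⟩
          rw [h3]
          simp
        · obtain ⟨u, hu, h4⟩ := hexit R h2.2 h2.1 h3
          exact ⟨u, fun _ _ => ⟨hu, h4⟩⟩
      · exact ⟨b0, fun h3 h4 => absurd ⟨h3, h4⟩ h2⟩
    choose f hf using h1
    exact ⟨f, hf⟩
  obtain ⟨f, hf⟩ := hf
  -- the number of thresholds
  obtain ⟨k, hk200, hk⟩ : ∃ k : ℕ, 200 ≤ k ∧ ∀ u ∈ B, ∀ y ∈ B, s u y ≤ 16 * k := by
    refine ⟨200 + ∑ u ∈ B, ∑ y ∈ B, s u y, by omega, fun u hu y hy => ?_⟩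
    have h1 : s u y ≤ ∑ u ∈ B, ∑ y ∈ B, s u y := by
      refine le_trans ?_ (single_le_sum (f := fun u => ∑ y ∈ B, s u y)
        (fun u _ => Nat.zero_le _) hu)
      exact single_le_sum (f := fun y => s u y) (fun y _ => Nat.zero_le _) hy
    omega
  have hkr : (200 : ℝ) ≤ k := by exact_mod_cast hk200
  obtain ⟨K, hK⟩ : ∃ K, K = 16 * k := ⟨_, rfl⟩
  obtain ⟨L, hL⟩ : ∃ L, L = 5 * k := ⟨_, rfl⟩
  have hcK : (84 / 25 : ℝ) ≤ K := by
    rw [hK]
    push_cast
    linarith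
  -- good pairs of threshold sequences
  classical
  obtain ⟨G, hG⟩ : ∃ G : Finset (Fin L ⊕ Fin L → Fin K), G = univ.filter
    fun ω : Fin L ⊕ Fin L → Fin K => ∀ t : ℕ,
      ((univ : Finset (Fin L ⊕ Fin L)).filter fun i => (ω i : ℕ) < t).card ≤ t := ⟨_, rfl⟩
  have hball := ballot (ι := Fin L ⊕ Fin L) K
  rw [← hG] at hball
  obtain ⟨g, hg⟩ : ∃ g, g = G.card := ⟨_, rfl⟩
  rw [← hg] at hball
  have hn : (2 : ℝ) ≤ B.card := by exact_mod_cast hB2
  have hn0 : 0 < (B.card : ℝ) * ((B.card : ℝ) - 1) := mul_pos (by linarith) (by linarith)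
  obtain ⟨A, hA⟩ : ∃ A : V → (Fin L → Fin K) → ℝ,
    A = fun x ω => ((B \ fin s B f L {x} ω).card : ℝ) := ⟨_, rfl⟩
  have hA0 : ∀ x ω, 0 ≤ A x ω := fun x ω => by rw [hA]; exact Nat.cast_nonneg _
  have hgood : ∀ ω ∈ G, (B.card : ℝ) * ((B.card : ℝ) - 1) ≤
      ∑ x ∈ B, (A x (fun i => ω (Sum.inl i)) + A x (fun i => ω (Sum.inr i))) := by
    intro ω hω
    rw [hG, mem_filter] at hω
    have h1 := pair_count B (fun x => fin s B f L {x} (fun i => ω (Sum.inl i)))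
      (fun x => fin s B f L {x} (fun i => ω (Sum.inr i)))
      (fun x hx => fin_subset L _ (by simpa using hx) _)
      (fun x hx => fin_subset L _ (by simpa using hx) _) (by
        intro x hx y hy hxy h2 h3
        obtain ⟨r, hr, N1, M1, hW1, hN1⟩ := fin_reach (fun R h4 h5 => (hf R h4 h5).1) L {x}
          (singleton_nonempty x) (by simpa using hx) _ y h2
        obtain ⟨r', hr', N2, M2, hW2, hN2⟩ := fin_reach (fun R h4 h5 => (hf R h4 h5).1) L {y}
          (singleton_nonempty y) (by simpa using hy) _ x h3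
        rw [mem_singleton] at hr hr'
        subst hr
        subst hr'
        obtain ⟨T, hT⟩ := hcon r _ (M1 + M2) (by
          by_contra h4
          exact hxy (hW1.eq_of_zero (by omega))) (hW1.trans hW2)
        have h5 := hω.2 T
        have h6 : ((univ : Finset (Fin L ⊕ Fin L)).filter fun i => (ω i : ℕ) < T).card =
            ((univ : Finset (Fin L)).filter fun i => (ω (Sum.inl i) : ℕ) < T).card +
              ((univ : Finset (Fin L)).filter fun i => (ω (Sum.inr i) : ℕ) < T).card := by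
          rw [card_filter, card_filter, card_filter, Fintype.sum_sum_type]
        have h7 := hN1 T
        have h8 := hN2 T
        omega)
    rw [hA]
    exact h1
  have hsumA : ∀ x ∈ B, ∑ ω : Fin L → Fin K, A x ω ≤
      (K - 84 / 25 : ℝ) ^ L * ((B.card : ℝ) - 1) := by
    intro x hx
    have h1 := sum_fin (s := s) (B := B) (f := f) (K := K) (c := 84 / 25) hcK
      (fun R h2 h3 y hy => by rw [hK]; exact hk _ (h3 (hf R h2 h3).1) y hy)
      (fun R h2 h3 => (hf R h2 h3).2) L {x} (singleton_nonempty x) (by simpa using hx)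
    have h2 : ((B \ {x}).card : ℝ) = (B.card : ℝ) - 1 := by
      rw [card_sdiff_of_subset (by simpa using hx), card_singleton, Nat.cast_sub (by omega),
        Nat.cast_one]
    rw [h2] at h1
    rw [hA]
    exact h1
  have htotal : ∑ ω : Fin L ⊕ Fin L → Fin K, ∑ x ∈ B,
      (A x (fun i => ω (Sum.inl i)) + A x (fun i => ω (Sum.inr i))) ≤
      2 * ((K : ℝ) ^ L * (K - 84 / 25 : ℝ) ^ L) * ((B.card : ℝ) * ((B.card : ℝ) - 1)) := by
    have e1 : ∑ ω : Fin L ⊕ Fin L → Fin K, ∑ x ∈ B,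
        (A x (fun i => ω (Sum.inl i)) + A x (fun i => ω (Sum.inr i))) =
        ∑ p : (Fin L → Fin K) × (Fin L → Fin K), ∑ x ∈ B, (A x p.1 + A x p.2) :=
      Fintype.sum_equiv (Equiv.sumArrowEquivProdArrow (Fin L) (Fin L) (Fin K)) _ _
        fun ω => rfl
    have e2 : ∀ x ∈ B, ∑ a : Fin L → Fin K, ∑ b : Fin L → Fin K, (A x a + A x b) ≤
        2 * ((K : ℝ) ^ L * (K - 84 / 25 : ℝ) ^ L) * ((B.card : ℝ) - 1) := by
      intro x hx
      have e3 : ∑ a : Fin L → Fin K, ∑ b : Fin L → Fin K, (A x a + A x b) =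
          2 * ((K : ℝ) ^ L * ∑ ω : Fin L → Fin K, A x ω) := by
        simp only [sum_add_distrib, sum_const, card_univ, Fintype.card_fun, Fintype.card_fin,
          nsmul_eq_mul, Nat.cast_pow, ← mul_sum]
        ring
      rw [e3]
      have h1 := mul_le_mul_of_nonneg_left (hsumA x hx)
        (by positivity : (0 : ℝ) ≤ 2 * (K : ℝ) ^ L)
      linarith
    rw [e1, Fintype.sum_prod_type]
    have e4 : ∑ a : Fin L → Fin K, ∑ b : Fin L → Fin K, ∑ x ∈ B, (A x a + A x b) =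
        ∑ x ∈ B, ∑ a : Fin L → Fin K, ∑ b : Fin L → Fin K, (A x a + A x b) := by
      rw [sum_congr rfl fun a _ => sum_comm, sum_comm]
    simp only
    rw [e4]
    refine (sum_le_sum e2).trans (le_of_eq ?_)
    rw [sum_const, nsmul_eq_mul]
    ring
  have hfinal : (G.card : ℝ) * ((B.card : ℝ) * ((B.card : ℝ) - 1)) ≤
      2 * ((K : ℝ) ^ L * (K - 84 / 25 : ℝ) ^ L) * ((B.card : ℝ) * ((B.card : ℝ) - 1)) := by
    refine le_trans ?_ htotal
    calc (G.card : ℝ) * ((B.card : ℝ) * ((B.card : ℝ) - 1))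
        = ∑ ω ∈ G, (B.card : ℝ) * ((B.card : ℝ) - 1) := by rw [sum_const, nsmul_eq_mul]
      _ ≤ ∑ ω ∈ G, ∑ x ∈ B,
          (A x (fun i => ω (Sum.inl i)) + A x (fun i => ω (Sum.inr i))) := sum_le_sum hgood
      _ ≤ _ := sum_le_sum_of_subset_of_nonneg (subset_univ _) fun ω _ _ =>
          sum_nonneg fun x _ => add_nonneg (hA0 _ _) (hA0 _ _)
  have hG1 : (g : ℝ) ≤ 2 * ((K : ℝ) ^ L * (K - 84 / 25 : ℝ) ^ L) := by
    rw [hg]
    exact le_of_mul_le_mul_right hfinal hn0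
  clear hfinal htotal hsumA hgood hA0 hA A
  have hnum := numeric hk200
  have h1 : Fintype.card (Fin L ⊕ Fin L) = 10 * k := by
    rw [Fintype.card_sum, Fintype.card_fin, hL]
    omega
  rw [h1] at hball
  clear hG hg G
  subst hK
  subst hL
  have hball' : ((6 * k + 1 : ℕ) : ℝ) * ((16 * k + 1 : ℕ) : ℝ) ^ (10 * k) ≤
      ((16 * k + 1 : ℕ) : ℝ) * g := by
    have h2 : 16 * k + 1 - 10 * k = 6 * k + 1 := by omega
    rw [h2] at hball
    exact_mod_cast hball
  have h2 := mul_le_mul_of_nonneg_left hG1 (Nat.cast_nonneg (16 * k + 1) (α := ℝ))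
  linarith

end Pool.Agent.H81.RE
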