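import Pool.Agent.H81.RD.Walk
import Pool.Agent.H81.RE.Ballot

/-!
# Growth with prescribed thresholds
-/

set_option autoImplicit false

namespace Pool.Agent.H81.RE

open Finset Pool.Agent.H81.RD

variable {V : Type} [DecidableEq V]

/-- one growth step: from the exit vertex `f R`, add everything reached with multiplicity
greater than `τ` -/
def stp (s : V → V → ℕ) (B : Finset V) (f : Finset V → V) (R : Finset V) (τ : ℕ) : Finset V :=
  R ∪ (B \ R).filter fun y => τ < s (f R) y

/-- the growth with the thresholds `ω` -/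
def fin (s : V → V → ℕ) (B : Finset V) (f : Finset V → V) {K : ℕ} :
    (L : ℕ) → Finset V → (Fin L → Fin K) → Finset V
  | 0, R, _ => R
  | L + 1, R, ω => fin s B f L (stp s B f R (ω 0)) (fun i => ω i.succ)

theorem stp_subset {s : V → V → ℕ} {B : Finset V} {f : Finset V → V} {R : Finset V}
    (hR : R ⊆ B) (τ : ℕ) : stp s B f R τ ⊆ B :=
  union_subset hR ((filter_subset _ _).trans sdiff_subset)

theorem stp_nonempty {s : V → V → ℕ} {B : Finset V} {f : Finset V → V} {R : Finset V}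
    (hR : R.Nonempty) (τ : ℕ) : (stp s B f R τ).Nonempty :=
  hR.mono subset_union_left

theorem fin_subset {s : V → V → ℕ} {B : Finset V} {f : Finset V → V} {K : ℕ} (L : ℕ) :
    ∀ (R : Finset V), R ⊆ B → ∀ ω : Fin L → Fin K, fin s B f L R ω ⊆ B := by
  induction L with
  | zero => intro R hR ω; exact hR
  | succ L ih => intro R hR ω; exact ih _ (stp_subset hR _) _

theorem fin_reach {s : V → V → ℕ} {B : Finset V} {f : Finset V → V} {K : ℕ}
    (hf : ∀ R : Finset V, R.Nonempty → R ⊆ B → f R ∈ R) (L : ℕ) :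
    ∀ (R : Finset V), R.Nonempty → R ⊆ B → ∀ ω : Fin L → Fin K, ∀ y ∈ fin s B f L R ω,
      ∃ r ∈ R, ∃ (N : ℕ → ℕ) (M : ℕ), W s r N M y ∧
        ∀ T : ℕ, N T ≤ ((univ : Finset (Fin L)).filter fun i => (ω i : ℕ) < T).card := by
  induction L with
  | zero =>
    intro R _ _ ω y hy
    exact ⟨y, hy, _, 0, W.refl, fun T => Nat.zero_le _⟩
  | succ L ih =>
    intro R hR hRB ω y hy
    obtain ⟨r, hr, N, M, hW, hN⟩ := ih _ (stp_nonempty hR _) (stp_subset hRB _) _ y hy
    have hcount : ∀ T : ℕ, ((univ : Finset (Fin (L + 1))).filter fun i => (ω i : ℕ) < T).card =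
        ((univ : Finset (Fin L)).filter fun i => (ω i.succ : ℕ) < T).card +
          if (ω 0 : ℕ) < T then 1 else 0 := by
      intro T
      rw [Fin.card_filter_univ_succ]
      split_ifs <;> simp
    unfold stp at hr
    rw [mem_union] at hr
    rcases hr with hr | hr
    · refine ⟨r, hr, N, M, hW, fun T => ?_⟩
      rw [hcount]
      exact (hN T).trans (Nat.le_add_right _ _)
    · rw [mem_filter] at hr
      refine ⟨f R, hf R hR hRB, _, _,
        (W.step W.refl (lt_of_le_of_lt (Nat.zero_le _) hr.2)).trans hW, fun T => ?_⟩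
      rw [hcount]
      have h1 := hN T
      have h2 : (if s (f R) r ≤ T then 1 else 0) ≤ if (ω 0 : ℕ) < T then 1 else 0 := by
        by_cases h3 : s (f R) r ≤ T
        · rw [if_pos h3, if_pos (lt_of_lt_of_le hr.2 h3)]
        · rw [if_neg h3]
          exact Nat.zero_le _
      omega

theorem card_le_val {K m : ℕ} (hm : m ≤ K) :
    ((univ : Finset (Fin K)).filter fun τ : Fin K => m ≤ (τ : ℕ)).card = K - m := by
  have h1 : ((univ : Finset (Fin K)).filter fun τ : Fin K => m ≤ (τ : ℕ)).card +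
      ((univ : Finset (Fin K)).filter fun τ : Fin K => ¬ m ≤ (τ : ℕ)).card = K := by
    rw [card_filter_add_card_filter_not, card_univ, Fintype.card_fin]
  have h2 : ((univ : Finset (Fin K)).filter fun τ : Fin K => ¬ m ≤ (τ : ℕ)).card = m := by
    have h3 : ((univ : Finset (Fin K)).filter fun τ : Fin K => ¬ m ≤ (τ : ℕ)) =
        (univ : Finset (Fin m)).map (Fin.castLEEmb hm) := by
      ext τ
      simp only [mem_filter, mem_univ, true_and, mem_map, Fin.castLEEmb_apply]
      constructor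
      · intro h
        exact ⟨⟨τ, by omega⟩, rfl⟩
      · rintro ⟨x, rfl⟩
        have := x.isLt
        simp only [Fin.val_castLE]
        omega
    rw [h3, card_map, card_univ, Fintype.card_fin]
  omega

/-- the average decrease in one step -/
theorem sum_stp {s : V → V → ℕ} {B : Finset V} {f : Finset V → V} {K : ℕ} {c : ℝ}
    {R : Finset V} (hK : ∀ y ∈ B, s (f R) y ≤ K)
    (hc : c * ((B \ R).card : ℝ) ≤ ∑ y ∈ B \ R, (s (f R) y : ℝ)) :
    ∑ τ : Fin K, ((B \ stp s B f R τ).card : ℝ) ≤ (K - c) * ((B \ R).card : ℝ) := by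
  have h1 : ∀ τ : Fin K, ((B \ stp s B f R τ).card : ℝ) =
      ∑ y ∈ B \ R, if s (f R) y ≤ (τ : ℕ) then (1 : ℝ) else 0 := by
    intro τ
    rw [sum_boole]
    congr 2
    ext y
    simp only [stp, mem_sdiff, mem_union, mem_filter]
    constructor
    · rintro ⟨h1, h2⟩
      push Not at h2
      exact ⟨⟨h1, h2.1⟩, h2.2 ⟨h1, h2.1⟩⟩
    · rintro ⟨⟨h1, h2⟩, h3⟩
      refine ⟨h1, ?_⟩
      rintro (h4 | h4)
      · exact h2 h4
      · omega
  rw [sum_congr rfl fun τ _ => h1 τ, sum_comm]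
  have h2 : ∀ y ∈ B \ R, (∑ τ : Fin K, if s (f R) y ≤ (τ : ℕ) then (1 : ℝ) else 0) =
      (K : ℝ) - s (f R) y := by
    intro y hy
    have h3 := hK y (mem_sdiff.mp hy).1
    rw [sum_boole, card_le_val h3, Nat.cast_sub h3]
  rw [sum_congr rfl h2, sum_sub_distrib, sum_const, nsmul_eq_mul]
  linarith

/-- the average decrease in `L` steps -/
theorem sum_fin {s : V → V → ℕ} {B : Finset V} {f : Finset V → V} {K : ℕ} {c : ℝ}
    (hcK : c ≤ K) (hK : ∀ R : Finset V, R.Nonempty → R ⊆ B → ∀ y ∈ B, s (f R) y ≤ K)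
    (hc : ∀ R : Finset V, R.Nonempty → R ⊆ B →
      c * ((B \ R).card : ℝ) ≤ ∑ y ∈ B \ R, (s (f R) y : ℝ)) (L : ℕ) :
    ∀ R : Finset V, R.Nonempty → R ⊆ B →
      ∑ ω : Fin L → Fin K, ((B \ fin s B f L R ω).card : ℝ) ≤
        (K - c) ^ L * ((B \ R).card : ℝ) := by
  induction L with
  | zero =>
    intro R _ _
    simp [fin]
  | succ L ih =>
    intro R hR hRB
    have h1 : ∑ ω : Fin (L + 1) → Fin K, ((B \ fin s B f (L + 1) R ω).card : ℝ) =
        ∑ τ : Fin K, ∑ ω : Fin L → Fin K, ((B \ fin s B f L (stp s B f R τ) ω).card : ℝ) := by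
      rw [← Fintype.sum_prod_type']
      refine (Fintype.sum_equiv (Fin.consEquiv (fun _ => Fin K)) _ _ fun p => ?_).symm
      simp only [fin, Fin.consEquiv_apply, Fin.cons_zero, Fin.cons_succ]
    rw [h1]
    calc ∑ τ : Fin K, ∑ ω : Fin L → Fin K, ((B \ fin s B f L (stp s B f R τ) ω).card : ℝ)
        ≤ ∑ τ : Fin K, (K - c) ^ L * ((B \ stp s B f R τ).card : ℝ) :=
          sum_le_sum fun τ _ => ih _ (stp_nonempty hR _) (stp_subset hRB _)
      _ = (K - c) ^ L * ∑ τ : Fin K, ((B \ stp s B f R τ).card : ℝ) := by rw [mul_sum]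
      _ ≤ (K - c) ^ L * ((K - c) * ((B \ R).card : ℝ)) := by
          refine mul_le_mul_of_nonneg_left (sum_stp (hK R hR hRB) (hc R hR hRB)) ?_
          exact pow_nonneg (by linarith) _
      _ = (K - c) ^ (L + 1) * ((B \ R).card : ℝ) := by rw [pow_succ]; ring

end Pool.Agent.H81.RE
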